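import Pool.Agent.R840.EC.Main

set_option autoImplicit false

namespace Pool.Agent.Results.MP_72974f_ag.Dimension

open Finset MvPolynomial

variable {n d : ℕ}

/-- The `j`-th coordinate of the contraction of the tensor `T` with `v` in every tensor factor
except the `k`-th one: the sum of `T_I ∏_{m ≠ k} v_{I m}` over the index tuples `I` with
`I k = j`. -/
def contract (T : (Fin d → Fin (n + 1)) → ℂ) (k : Fin d) (v : Fin (n + 1) → ℂ)
    (j : Fin (n + 1)) : ℂ :=
  ∑ I : Fin d → Fin (n + 1), if I k = j then T I * ∏ m ∈ univ.erase k, v (I m) else 0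

/-- The points of the `k`-th eigenscheme of `T` in projective space: the common zeros of the
`2 × 2` minors of the matrix with rows `v` and the `k`-th contraction of `T` with `v`. -/
def eigenpoints (T : (Fin d → Fin (n + 1)) → ℂ) (k : Fin d) :
    Set (Projectivization ℂ (Fin (n + 1) → ℂ)) :=
  {P | ∀ i j, P.rep i * contract T k P.rep j = P.rep j * contract T k P.rep i}

/-- The number `D_{n,d} = 1 + (d-1) + ... + (d-1)^n = ((d-1)^(n+1) - 1)/(d-2)`. -/
def numEig (n d : ℕ) : ℕ := ∑ i ∈ range (n + 1), (d - 1) ^ i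

/-- `d`-tuples of points of the symmetric product `(P^n)^(D_{n,d})`. -/
abbrev Config (n d : ℕ) : Type :=
  Fin d → Sym (Projectivization ℂ (Fin (n + 1) → ℂ)) (numEig n d)

/-- The tuples of eigenschemes of those tensors all of whose `d` eigenschemes consist of
`D_{n,d}` distinct points. -/
def reducedConfigs (n d : ℕ) : Set (Config n d) :=
  {X | ∃ T : (Fin d → Fin (n + 1)) → ℂ, ∀ k,
    (X k : Multiset (Projectivization ℂ (Fin (n + 1) → ℂ))).Nodup ∧
    ∀ P, P ∈ X k ↔ P ∈ eigenpoints T k}

/-- The tuples of cycles of degree `D_{n,d}` supported on the `d` eigenschemes of a tensor all of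
whose `d` eigenschemes are finite. -/
def finiteConfigs (n d : ℕ) : Set (Config n d) :=
  {X | ∃ T : (Fin d → Fin (n + 1)) → ℂ, ∀ k, (eigenpoints T k).Finite ∧
    ∀ P, P ∈ X k → P ∈ eigenpoints T k}

/-- The Chow form of the points with coordinate vectors `p 0, p 1, ...`: the product of the
linear forms `∑ j, p i j * x_j`. -/
noncomputable def chow {D : ℕ} (p : Fin D → Fin (n + 1) → ℂ) : MvPolynomial (Fin (n + 1)) ℂ :=
  ∏ i, ∑ j, C (p i j) * X j

/-- The index set of the coordinates of a `d`-tuple of forms of degree `D_{n,d}`. -/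
abbrev Idx (n d : ℕ) : Type := Fin d × {a : Fin (n + 1) →₀ ℕ // a.degree = numEig n d}

/-- The multicone over a set `S` of tuples of cycles: the coefficient vectors of all `d`-tuples of
Chow forms of elements of `S`, where each point of each cycle may be represented by any of its
nonzero coordinate vectors. -/
def cone (S : Set (Config n d)) : Set (Idx n d → ℂ) :=
  {c | ∃ X ∈ S, ∃ p : Fin d → Fin (numEig n d) → Fin (n + 1) → ℂ, ∃ hp : ∀ k i, p k i ≠ 0,
    (∀ k, (X k : Multiset (Projectivization ℂ (Fin (n + 1) → ℂ))) =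
      Multiset.map (fun i => Projectivization.mk ℂ (p k i) (hp k i)) univ.val) ∧
    ∀ x : Idx n d, c x = coeff x.2.1 (chow (p x.1))}

/-- The dimension of the eigencompatibility variety `EC_{n,d}` for all `n ≥ 1` and `d ≥ 3`.
The multihomogeneous coordinate ring of the Zariski closure of `S` has Krull dimension `e + d`,
that is, the closure has dimension `e`. -/
theorem result (n d : ℕ) (hn : 1 ≤ n) (hd : 3 ≤ d) (S : Set (Config n d))
    (hS₁ : reducedConfigs n d ⊆ S) (hS₂ : S ⊆ finiteConfigs n d) :
    ∃ e : ℕ,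
      ringKrullDim (MvPolynomial (Idx n d) ℂ ⧸ vanishingIdeal ℂ (cone S)) =
        ((e + d : ℕ) : WithBot ℕ∞) ∧
      (e : ℤ) = (d - 1) * (n + 1) * (n + d - 1).choose n - (d - 2) * (n + d).choose n - 1 -
        if Even d then 1 else 0 :=
  Pool.Agent.R840.EC.main hn hd S hS₁ hS₂

end Pool.Agent.Results.MP_72974f_ag.Dimension
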